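import Pool.Agent.N463.MI.Stm

/-!
Project MI (helper463), part F01 (helper701): positivity and an upper bound for large `n`.
-/

set_option autoImplicit false

open MeasureTheory

namespace Pool.Agent.N701.MI

open Pool.Agent.N463.MI

theorem PP_conj (z q : ℂ) :
    PP (starRingEnd ℂ z) (starRingEnd ℂ q) = starRingEnd ℂ (PP z q) := by
  unfold PP
  rw [Function.LeftInverse.map_tprod (g := starRingEnd ℂ) (g' := starRingEnd ℂ) _
    Complex.continuous_conj Complex.continuous_conj Complex.conj_conj]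
  refine tprod_congr fun k => ?_
  simp

theorem FF_conj (a : ℝ) (q : ℂ) : FF a (starRingEnd ℂ q) = starRingEnd ℂ (FF a q) := by
  unfold FF
  rw [map_div₀, ← PP_conj, ← PP_conj, Complex.conj_ofReal, map_one]

theorem pt_neg (t θ : ℝ) : pt t (-θ) = starRingEnd ℂ (pt t θ) := by
  unfold pt
  rw [← Complex.exp_conj]
  congr 1
  simp

theorem norm_FF_neg (a t θ : ℝ) : ‖FF a (pt t (-θ))‖ = ‖FF a (pt t θ)‖ := by
  rw [pt_neg, FF_conj, RCLike.norm_conj]

theorem norm_e (n : ℕ) (θ : ℝ) : ‖Complex.exp (-((n : ℂ) * (θ : ℂ) * Complex.I))‖ = 1 := by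
  rw [Complex.norm_exp]
  have : (-((n : ℂ) * (θ : ℂ) * Complex.I)).re = 0 := by simp
  rw [this, Real.exp_zero]

theorem adm_facts {a : ℝ} {K : ℕ} (h : Adm a K) : 0 < Real.log a / K ∧ Real.log a / K ≤ 1 / 100 ∧
    (a = 2 ∨ a = 3) := by
  rcases h with ⟨rfl, hK⟩ | ⟨rfl, hK⟩
  · have hK' : (340 : ℝ) ≤ K := by exact_mod_cast hK
    have h1 : 0 < Real.log 2 := Real.log_pos (by norm_num)
    have h2 : Real.log 2 ≤ 2 - 1 := Real.log_le_sub_one_of_pos (by norm_num)
    refine ⟨by positivity, ?_, Or.inl rfl⟩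
    rw [div_le_iff₀ (by linarith)]
    linarith
  · have hK' : (400 : ℝ) ≤ K := by exact_mod_cast hK
    have h1 : 0 < Real.log 3 := Real.log_pos (by norm_num)
    have h2 : Real.log 3 ≤ 3 - 1 := Real.log_le_sub_one_of_pos (by norm_num)
    refine ⟨by positivity, ?_, Or.inr rfl⟩
    rw [div_le_iff₀ (by linarith)]
    linarith

theorem small_all (c1 : C01) (c2 : C02) (d5 : D05) {a : ℝ} {K : ℕ} (h : Adm a K) {θ : ℝ}
    (h1 : Real.log a / K ≤ |θ|) (h2 : |θ| ≤ Real.pi) :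
    ‖FF a (pt (Real.log a / K) θ)‖ ≤ (Real.log a / K) * √(Real.log a / K) *
      Real.exp (cst a / (Real.log a / K) - 3) := by
  have key : ∀ φ : ℝ, Real.log a / K ≤ φ → φ ≤ Real.pi → Pool.Agent.N463.MI.Small a K φ := by
    intro φ h3 h4
    by_cases h5 : φ ≤ 1 / 25
    · exact c1 a K φ h h3 h5
    · by_cases h6 : φ ≤ Real.pi - 1 / 25
      · exact d5 a K φ h (not_le.1 h5).le h6
      · exact c2 a K φ h (not_le.1 h6).le h4
  have h3 := key |θ| h1 h2
  unfold Pool.Agent.N463.MI.Small at h3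
  rcases abs_cases θ with ⟨h4, -⟩ | ⟨h4, -⟩
  · rwa [h4] at h3
  · rwa [h4, norm_FF_neg] at h3

theorem exp_neg_three : Real.exp (-3) ≤ 1 / 20 := by
  have h1 := Real.exp_one_gt_d9
  have h2 : Real.exp 3 = Real.exp 1 ^ 3 := by
    rw [← Real.exp_nat_mul]
    norm_num
  have h3 : (20 : ℝ) ≤ Real.exp 3 := by
    rw [h2]
    have h4 : (2.7182818283 : ℝ) ^ 3 ≤ Real.exp 1 ^ 3 := pow_le_pow_left₀ (by norm_num) h1.le 3
    refine le_trans ?_ h4
    norm_num
  rw [Real.exp_neg, one_div]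
  exact inv_anti₀ (by norm_num) h3

/-- positivity -/
theorem pos (h2 : A02) (h6 : E06) (c1 : C01) (c2 : C02) (d5 : D05) (a : ℤ) (n K : ℕ)
    (hK : Adm (a : ℝ) K)
    (hη : |(n : ℝ) * (Real.log (a : ℝ) / K) ^ 2 / cst (a : ℝ) - 1| ≤
      1 / (K : ℝ) + 1 / (4 * (K : ℝ) ^ 2)) : 0 < cc a n := by
  obtain ⟨ht0, ht1, -⟩ := adm_facts hK
  have hs := fun θ => small_all c1 c2 d5 hK (θ := θ)
  have h6' := h6 (a : ℝ) K n hK _ rfl hη
  obtain ⟨hc, hA⟩ := h2 a _ ht0
  replace hA := hA n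
  obtain ⟨t, htdef⟩ : ∃ t, t = Real.log (a : ℝ) / K := ⟨_, rfl⟩
  rw [← htdef] at ht0 ht1 h6' hc hA
  simp only [← htdef] at hs
  obtain ⟨M, hM⟩ : ∃ M, M = t * √t * Real.exp (cst (a : ℝ) / t - 3) := ⟨_, rfl⟩
  simp only [← hM] at hs
  obtain ⟨G, hG⟩ : ∃ G : ℝ → ℂ, G = fun θ => FF (a : ℝ) (pt t θ) *
    Complex.exp (-((n : ℂ) * (θ : ℂ) * Complex.I)) := ⟨_, rfl⟩
  have hGc : Continuous G := by
    rw [hG]
    exact hc.mul (by fun_prop)
  have hGn : ∀ θ, ‖G θ‖ = ‖FF (a : ℝ) (pt t θ)‖ := by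
    intro θ
    rw [hG]
    show ‖_ * _‖ = _
    rw [norm_mul, norm_e, mul_one]
  have hA' : ∫ θ in (-Real.pi)..Real.pi, G θ =
      ((2 * Real.pi * Real.exp (-(n * t)) * (cc a n : ℝ) : ℝ) : ℂ) := by
    rw [hG]
    exact hA
  have h6'' : 1 / 2 * (t * √t) * Real.exp (cst (a : ℝ) / t) ≤ (∫ θ in (-t)..t, G θ).re := by
    rw [hG]
    exact h6'
  have hpi := Real.pi_gt_three
  have hpi2 := Real.pi_lt_d2
  have hint : ∀ x y, IntervalIntegrable G volume x y := fun x y => hGc.intervalIntegrable x y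
  have hsplit : ∫ θ in (-Real.pi)..Real.pi, G θ = (∫ θ in (-Real.pi)..(-t), G θ) +
      (∫ θ in (-t)..t, G θ) + ∫ θ in t..Real.pi, G θ := by
    rw [intervalIntegral.integral_add_adjacent_intervals (hint _ _) (hint _ _),
      intervalIntegral.integral_add_adjacent_intervals (hint _ _) (hint _ _)]
  have hM0 : 0 ≤ M := by
    rw [hM]
    positivity
  have hI1 : ‖∫ θ in (-Real.pi)..(-t), G θ‖ ≤ M * Real.pi := by
    have h7 : ∀ θ ∈ Set.uIoc (-Real.pi) (-t), ‖G θ‖ ≤ M := by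
      intro θ hθ
      rw [Set.uIoc_of_le (by linarith)] at hθ
      rw [hGn]
      have h8 : |θ| = -θ := abs_of_neg (by linarith [hθ.2])
      exact hs θ (by rw [h8]; linarith [hθ.2]) (by rw [h8]; linarith [hθ.1])
    refine (intervalIntegral.norm_integral_le_of_norm_le_const h7).trans ?_
    refine mul_le_mul_of_nonneg_left ?_ hM0
    rw [abs_of_nonneg (by linarith)]
    linarith
  have hI3 : ‖∫ θ in t..Real.pi, G θ‖ ≤ M * Real.pi := by
    have h7 : ∀ θ ∈ Set.uIoc t Real.pi, ‖G θ‖ ≤ M := by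
      intro θ hθ
      rw [Set.uIoc_of_le (by linarith)] at hθ
      rw [hGn]
      have h8 : |θ| = θ := abs_of_pos (by linarith [hθ.1])
      exact hs θ (by rw [h8]; exact hθ.1.le) (by rw [h8]; exact hθ.2)
    refine (intervalIntegral.norm_integral_le_of_norm_le_const h7).trans ?_
    refine mul_le_mul_of_nonneg_left ?_ hM0
    rw [abs_of_nonneg (by linarith)]
    linarith
  have h7 : 2 * Real.pi * Real.exp (-(n * t)) * (cc a n : ℝ) =
      (∫ θ in (-Real.pi)..(-t), G θ).re + (∫ θ in (-t)..t, G θ).re +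
        (∫ θ in t..Real.pi, G θ).re := by
    have h8 := congrArg Complex.re hA'
    rw [hsplit, Complex.add_re, Complex.add_re, Complex.ofReal_re] at h8
    exact h8.symm
  have h8 := (abs_le.1 (Complex.abs_re_le_norm (∫ θ in (-Real.pi)..(-t), G θ))).1
  have h9 := (abs_le.1 (Complex.abs_re_le_norm (∫ θ in t..Real.pi, G θ))).1
  have hM1 : M ≤ (t * √t * Real.exp (cst (a : ℝ) / t)) * (1 / 20) := by
    rw [hM, sub_eq_add_neg, Real.exp_add, ← mul_assoc]
    exact mul_le_mul_of_nonneg_left exp_neg_three (by positivity)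
  have hT : 0 < t * √t * Real.exp (cst (a : ℝ) / t) := by
    have := Real.sqrt_pos.2 ht0
    positivity
  have h10 : M * Real.pi ≤ (t * √t * Real.exp (cst (a : ℝ) / t)) * (1 / 5) := by
    calc M * Real.pi ≤ ((t * √t * Real.exp (cst (a : ℝ) / t)) * (1 / 20)) * 4 :=
          mul_le_mul hM1 (by linarith) (by linarith) (by positivity)
      _ = _ := by ring
  have h11 : 0 < 2 * Real.pi * Real.exp (-(n * t)) * (cc a n : ℝ) := by
    rw [h7]
    have h12 : 1 / 2 * (t * √t) * Real.exp (cst (a : ℝ) / t) =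
      (t * √t * Real.exp (cst (a : ℝ) / t)) * (1 / 2) := by ring
    rw [h12] at h6''
    linarith
  have h12 : (0 : ℝ) < (cc a n : ℝ) := (mul_pos_iff_of_pos_left (by positivity)).1 h11
  exact_mod_cast h12

/-- the bound on the whole circle -/
theorem norm_le_exp (h5 : E05) (c1 : C01) (c2 : C02) (d5 : D05) {K : ℕ} (hK : Adm 2 K)
    (hc : 0 ≤ cst 2) (θ : ℝ) (h2 : |θ| ≤ Real.pi) :
    ‖FF 2 (pt (Real.log 2 / K) θ)‖ ≤ Real.exp (cst 2 / (Real.log 2 / K)) := by
  obtain ⟨ht0, ht1, -⟩ := adm_facts hK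
  by_cases h1 : Real.log 2 / K ≤ |θ|
  · refine (small_all c1 c2 d5 hK h1 h2).trans ?_
    rw [sub_eq_add_neg, Real.exp_add]
    have e1 : Real.exp (-3) ≤ 1 := exp_neg_three.trans (by norm_num)
    have e2 : Real.log 2 / K * √(Real.log 2 / K) ≤ 1 := by
      have h3 : √(Real.log 2 / K) ≤ 1 := by
        rw [Real.sqrt_le_one]
        linarith
      have h4 := Real.sqrt_nonneg (Real.log 2 / K)
      nlinarith
    have e3 := Real.exp_pos (cst 2 / (Real.log 2 / K))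
    have e4 : 0 ≤ Real.log 2 / K * √(Real.log 2 / K) := by positivity
    calc Real.log 2 / K * √(Real.log 2 / K) *
          (Real.exp (cst 2 / (Real.log 2 / K)) * Real.exp (-3))
        ≤ 1 * (Real.exp (cst 2 / (Real.log 2 / K)) * 1) := by
          refine mul_le_mul e2 (mul_le_mul_of_nonneg_left e1 e3.le) (by positivity) (by norm_num)
      _ = _ := by ring
  · obtain ⟨t, htdef⟩ : ∃ t, t = Real.log 2 / K := ⟨_, rfl⟩
    rw [← htdef] at ht0 ht1 h1 ⊢
    have hx : |θ / t| ≤ 1 := by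
      rw [abs_div, abs_of_pos ht0, div_le_one ht0]
      exact (not_le.1 h1).le
    obtain ⟨E, hE, hF⟩ := h5 2 t (θ / t) (Or.inl rfl) ht0 hx
    have hth : t * (θ / t) = θ := by field_simp
    rw [hth] at hF
    rw [hF, Complex.norm_exp, Complex.add_re, Complex.sub_re, Complex.ofReal_re]
    rw [Real.exp_le_exp]
    have e1 : E.re ≤ 2 * t := (Complex.re_le_norm E).trans hE
    have e2 : (1 : ℝ) / 3 ≤ Real.log ((1 + 2) / 2) := by
      have h3 := Real.one_sub_inv_le_log_of_pos (show (0 : ℝ) < (1 + 2) / 2 by norm_num)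
      refine le_trans ?_ h3
      norm_num
    have e3 : ((cst 2 : ℂ) / ((t : ℂ) * (1 - ((θ / t : ℝ) : ℂ) * Complex.I))).re ≤ cst 2 / t := by
      refine (Complex.re_le_norm _).trans ?_
      rw [norm_div, norm_mul, Complex.norm_real, Complex.norm_real, Real.norm_eq_abs,
        Real.norm_eq_abs, abs_of_nonneg hc, abs_of_pos ht0]
      have h4 : 1 ≤ ‖1 - ((θ / t : ℝ) : ℂ) * Complex.I‖ := by
        have h5 := Complex.re_le_norm (1 - ((θ / t : ℝ) : ℂ) * Complex.I)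
        have h6 : (1 - ((θ / t : ℝ) : ℂ) * Complex.I).re = 1 := by simp
        rwa [h6] at h5
      refine div_le_div_of_nonneg_left hc ht0 ?_
      nlinarith
    linarith

/-- the upper bound -/
theorem upper (h2 : A02) (h5 : E05) (c1 : C01) (c2 : C02) (d5 : D05) (h4 : B04) (n K : ℕ)
    (hK : Adm 2 K) (hη : |(n : ℝ) * (Real.log 2 / K) ^ 2 / cst 2 - 1| ≤
      1 / (K : ℝ) + 1 / (4 * (K : ℝ) ^ 2))
    (hs : cst 2 / (Real.log 2 / K) ≤ √(cst 2 * n) + cst 2 / (2 * Real.log 2)) :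
    (cc 2 n : ℝ) ≤ Real.exp (2 * √(cst 2 * n) + 2) := by
  obtain ⟨ht0, ht1, -⟩ := adm_facts hK
  obtain ⟨b1, b2, -, -⟩ := h4
  have hc0 : 0 < cst 2 := by nlinarith [sq_nonneg (Real.log 2)]
  have hL := Real.log_two_gt_d9
  have hK1 : (340 : ℝ) ≤ K := by
    rcases hK with ⟨-, h⟩ | ⟨h, -⟩
    · exact_mod_cast h
    · norm_num at h
  have hn := norm_le_exp h5 c1 c2 d5 hK hc0.le
  obtain ⟨hc, hA⟩ := h2 2 _ ht0
  replace hA := hA n
  have e2 : (((2 : ℤ) : ℝ)) = 2 := by norm_num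
  rw [e2] at hA
  have h7 : ‖∫ θ in (-Real.pi)..Real.pi, FF 2 (pt (Real.log 2 / K) θ) *
      Complex.exp (-((n : ℂ) * (θ : ℂ) * Complex.I))‖ ≤
      Real.exp (cst 2 / (Real.log 2 / K)) * |Real.pi - -Real.pi| := by
    refine intervalIntegral.norm_integral_le_of_norm_le_const fun θ hθ => ?_
    rw [Set.uIoc_of_le (by linarith [Real.pi_pos])] at hθ
    rw [norm_mul, norm_e, mul_one]
    exact hn θ (abs_le.2 ⟨hθ.1.le, hθ.2⟩)
  rw [hA, Complex.norm_real, Real.norm_eq_abs] at h7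
  have hpi := Real.pi_pos
  have h8 : |Real.pi - -Real.pi| = 2 * Real.pi := by
    rw [abs_of_pos (by linarith)]
    ring
  rw [h8] at h7
  have h9 := (le_abs_self _).trans h7
  have h10 : (cc 2 n : ℝ) ≤ Real.exp (n * (Real.log 2 / K) + cst 2 / (Real.log 2 / K)) := by
    have h11 : Real.exp (-(n * (Real.log 2 / K))) * (cc 2 n : ℝ) ≤
        Real.exp (cst 2 / (Real.log 2 / K)) := by
      have h12 : 2 * Real.pi * (Real.exp (-(n * (Real.log 2 / K))) * (cc 2 n : ℝ)) ≤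
          2 * Real.pi * Real.exp (cst 2 / (Real.log 2 / K)) := by linarith
      exact le_of_mul_le_mul_left h12 (by positivity)
    rw [Real.exp_add]
    have h13 : (cc 2 n : ℝ) = Real.exp (n * (Real.log 2 / K)) *
        (Real.exp (-(n * (Real.log 2 / K))) * (cc 2 n : ℝ)) := by
      rw [← mul_assoc, ← Real.exp_add, add_neg_cancel, Real.exp_zero, one_mul]
    rw [h13]
    exact mul_le_mul_of_nonneg_left h11 (Real.exp_pos _).le
  refine h10.trans (Real.exp_le_exp.2 ?_)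
  -- the exponent
  have hKp : (0 : ℝ) < K := by linarith
  have hLp : (0 : ℝ) < Real.log 2 := by linarith
  have h11 := (abs_le.1 hη).2
  have h12 : (n : ℝ) * (Real.log 2 / K) = (cst 2 / (Real.log 2 / K)) *
      ((n : ℝ) * (Real.log 2 / K) ^ 2 / cst 2) := by
    field_simp
  have h13 : 0 ≤ cst 2 / (Real.log 2 / K) := by positivity
  have h14 : (n : ℝ) * (Real.log 2 / K) ≤ (cst 2 / (Real.log 2 / K)) *
      (1 + (1 / (K : ℝ) + 1 / (4 * (K : ℝ) ^ 2))) := by
    rw [h12]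
    exact mul_le_mul_of_nonneg_left (by linarith) h13
  have h15 : (cst 2 / (Real.log 2 / K)) * (1 / (K : ℝ) + 1 / (4 * (K : ℝ) ^ 2)) =
      cst 2 / Real.log 2 * (1 + 1 / (4 * K)) := by
    field_simp
  have h16 : cst 2 / Real.log 2 ≤ 0.8966 := by
    rw [div_le_iff₀ hLp]
    nlinarith
  have h17 : cst 2 / (2 * Real.log 2) = cst 2 / Real.log 2 / 2 := by
    field_simp
  have h18 : 1 / (4 * (K : ℝ)) ≤ 1 / 1000 := by
    rw [div_le_div_iff₀ (by positivity) (by norm_num)]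
    linarith
  have h19 : cst 2 / Real.log 2 * (1 + 1 / (4 * K)) ≤ 0.8966 * (1 + 1 / 1000) :=
    mul_le_mul h16 (by linarith) (by positivity) (by norm_num)
  rw [h17] at hs
  nlinarith

/-- F01 -/
theorem t_F01 (h2 : A02) (h5 : E05) (h6 : E06) (c1 : C01) (c2 : C02) (d5 : D05) (h4 : B04)
    (hk : F01a) : F01 := by
  refine ⟨fun n hn => ?_, fun n hn => ?_, fun n hn => ?_⟩
  · obtain ⟨K, hK, hη, -⟩ := hk 2 n (Or.inl rfl) hn
    refine pos h2 h6 c1 c2 d5 2 n K ?_ ?_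
    · push_cast
      exact hK
    · push_cast
      exact hη
  · obtain ⟨K, hK, hη, -⟩ := hk 3 n (Or.inr rfl) hn
    refine pos h2 h6 c1 c2 d5 3 n K ?_ ?_
    · push_cast
      exact hK
    · push_cast
      exact hη
  · obtain ⟨K, hK, hη, hs⟩ := hk 2 n (Or.inl rfl) hn
    exact upper h2 h5 c1 c2 d5 h4 n K hK hη hs

end Pool.Agent.N701.MI
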